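import Pool.Agent.Ono.Main

/-!
# The Ono invariant and ideal classes of order greater than two

If the Ono invariant `F(Δ)` equals the number `N + 1` of the prime divisors of `Δ`, then all ideal
classes have order at most two, or `Δ` satisfies strong restrictions. In particular, for even `Δ`
with at most three prime divisors, `F(Δ) = N + 1` implies that all ideal classes have order at
most two.
-/

set_option autoImplicit false

open NumberField Module nonZeroDivisors

namespace Pool.Agent.Results.MP_ddb6ee_nt.OnoInvariant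

/-- The fundamental discriminant of the field generated by a square root of `D` (squarefree). -/
def fundDisc (D : ℤ) : ℤ := if D % 4 = 1 then D else 4 * D

/-- The first Euler-Rabinowitsch polynomial of `Δ`. -/
def eulerRab (Δ x : ℤ) : ℤ := if 4 ∣ Δ then x ^ 2 - Δ / 4 else x ^ 2 + x + (1 - Δ) / 4

/-- The integers `x` with `0 ≤ x ≤ ⌊|Δ| / 4 - 1⌋`. -/
noncomputable def onoRange (Δ : ℤ) : Finset ℤ := Finset.Icc 0 ⌊((|Δ| : ℤ) : ℚ) / 4 - 1⌋

/-- The Ono invariant: the largest number of prime factors (with multiplicity) of a value. -/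
noncomputable def onoInvariant (Δ : ℤ) : ℕ :=
  (onoRange Δ).sup fun x => ArithmeticFunction.cardFactors (eulerRab Δ x).natAbs

theorem le_ono {Δ : ℤ} {x : ℕ} (hx : 4 * ((x : ℤ) + 1) ≤ |Δ|) :
    ArithmeticFunction.cardFactors (eulerRab Δ x).natAbs ≤ onoInvariant Δ := by
  apply Finset.le_sup (f := fun x : ℤ => ArithmeticFunction.cardFactors (eulerRab Δ x).natAbs)
  unfold onoRange
  rw [Finset.mem_Icc]
  refine ⟨by positivity, ?_⟩
  rw [Int.le_floor]
  have h1 : ((4 * ((x : ℤ) + 1) : ℤ) : ℚ) ≤ ((|Δ| : ℤ) : ℚ) := by exact_mod_cast hx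
  push_cast at h1 ⊢
  linarith

/-- Let `D < 0` be squarefree, `K` the quadratic field generated by a square root of `D`, and `Δ`
its discriminant. If the Ono invariant of `Δ` equals the number of prime divisors of `Δ`, then
every ideal class has order at most two, or the following holds for the least norm `p` of an ideal
whose class has order greater than two: `p` is prime; if `Δ` is odd then `3 p ^ 2 ≤ |Δ|` and all
prime divisors of `Δ` are less than `2 p`; if `Δ` is even then `4 p ^ 2 < |Δ|`, all prime divisors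
of `Δ` are less than `p`, and less than `p / 2` if `8` divides `Δ`, and `Δ` has at least four prime
divisors; for every set `T` of prime divisors of `Δ` the product of `p ^ |T|` and the prime divisors
outside `T` is at least `|Δ| / 4`. -/
theorem result (D : ℤ) (hD : D < 0) (hsq : Squarefree D) (K : Type*) [Field K] [NumberField K]
    (hK : finrank ℚ K = 2) (hs : ∃ s : K, s ^ 2 = (D : K))
    (hF : onoInvariant (fundDisc D) = (fundDisc D).natAbs.primeFactors.card) :
    (∀ c : ClassGroup (𝓞 K), c ^ 2 = 1) ∨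
    ∃ p : ℕ, p.Prime ∧
      IsLeast {q : ℕ | ∃ I : (Ideal (𝓞 K))⁰, ClassGroup.mk0 I ^ 2 ≠ 1 ∧
        Ideal.absNorm (I : Ideal (𝓞 K)) = q} p ∧
      (¬ 4 ∣ fundDisc D → 3 * (p : ℤ) ^ 2 ≤ |fundDisc D| ∧
        ∀ P : ℕ, P.Prime → (P : ℤ) ∣ fundDisc D → P < 2 * p) ∧
      (4 ∣ fundDisc D → 4 * (p : ℤ) ^ 2 < |fundDisc D| ∧
        (∀ P : ℕ, P.Prime → (P : ℤ) ∣ fundDisc D → P < p) ∧
        4 ≤ (fundDisc D).natAbs.primeFactors.card) ∧
      (8 ∣ fundDisc D → ∀ P : ℕ, P.Prime → (P : ℤ) ∣ fundDisc D → 2 * P < p) ∧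
      ∀ T ⊆ (fundDisc D).natAbs.primeFactors, |fundDisc D| ≤
        4 * ((p : ℤ) ^ T.card * ∏ r ∈ (fundDisc D).natAbs.primeFactors \ T, (r : ℤ)) := by
  by_cases hc : ∀ c : ClassGroup (𝓞 K), c ^ 2 = 1
  · exact Or.inl hc
  right
  obtain ⟨m, hm, rfl⟩ : ∃ m : ℕ, 0 < m ∧ D = -(m : ℤ) := ⟨D.natAbs, by omega, by omega⟩
  have hsqm : Squarefree m := by
    rw [← Int.squarefree_natCast, ← Ono.squarefree_neg]
    exact hsq
  by_cases h4 : m % 4 = 3
  · -- odd discriminant
    have hΔ : fundDisc (-(m : ℤ)) = -(m : ℤ) := by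
      unfold fundDisc
      rw [if_pos (by omega)]
    have hn : 4 * ((m + 1) / 4) = 1 + m := by omega
    obtain ⟨ω, hω⟩ := Ono.exists_odd hK hD hs (n := (((m + 1) / 4 : ℕ) : ℤ)) (by omega)
    have habs : |(-(m : ℤ))| = m := by rw [abs_neg, abs_of_nonneg (by positivity)]
    have hcard : (-(m : ℤ)).natAbs.primeFactors = m.primeFactors := by
      rw [Int.natAbs_neg, Int.natAbs_natCast]
    rw [hΔ, hcard] at hF
    have hval : ∀ x : ℕ, 4 * (x + 1) ≤ m →
        ArithmeticFunction.cardFactors (x ^ 2 + x + (m + 1) / 4) ≤ m.primeFactors.card := by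
      intro x hx
      rw [← hF]
      have h1 := le_ono (Δ := -(m : ℤ)) (x := x) (by rw [habs]; exact_mod_cast hx)
      have h2 : (eulerRab (-(m : ℤ)) x).natAbs = x ^ 2 + x + (m + 1) / 4 := by
        unfold eulerRab
        rw [if_neg (by omega)]
        have h3 : (1 - -(m : ℤ)) / 4 = (((m + 1) / 4 : ℕ) : ℤ) := by omega
        rw [h3, ← Nat.cast_pow, ← Nat.cast_add, ← Nat.cast_add, Int.natAbs_natCast]
      rwa [h2] at h1
    obtain ⟨p, h1, h2, h3, h5, h6⟩ := Ono.main_odd hω hn hsqm hc hval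
    rw [hΔ, habs, hcard]
    refine ⟨p, h1, h2, fun _ => ⟨by exact_mod_cast h3, ?_⟩, fun h => by omega,
      fun h => by omega, ?_⟩
    · intro P hP hd
      exact h5 P hP (by
        rw [dvd_neg] at hd
        exact_mod_cast hd)
    · intro T hT
      have h7 : ((m : ℕ) : ℤ) ≤ ((4 * (p ^ T.card * ∏ r ∈ m.primeFactors \ T, r) : ℕ) : ℤ) :=
        Int.ofNat_le.2 (h6 T hT)
      push_cast at h7
      exact h7
  · -- even discriminant
    have h4' : m % 4 = 1 ∨ m % 4 = 2 := by
      have h5 : m % 4 ≠ 0 := by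
        intro h0
        have h6 : 2 * 2 ∣ m := by omega
        have h7 := hsqm 2 h6
        rw [Nat.isUnit_iff] at h7
        omega
      omega
    have hΔ : fundDisc (-(m : ℤ)) = -(4 * (m : ℤ)) := by
      unfold fundDisc
      rw [if_neg (by omega)]
      ring
    obtain ⟨ω, hω⟩ := Ono.exists_even hK hD hs
    rw [neg_neg] at hω
    have habs : |(-(4 * (m : ℤ)))| = 4 * m := by rw [abs_neg, abs_of_nonneg (by positivity)]
    have hnat : (-(4 * (m : ℤ))).natAbs = 4 * m := by omega
    rw [hΔ, hnat] at hF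
    have hval : ∀ x : ℕ, 4 * (x + 1) ≤ 4 * m →
        ArithmeticFunction.cardFactors (x ^ 2 + m) ≤ (4 * m).primeFactors.card := by
      intro x hx
      rw [← hF]
      have h1 := le_ono (Δ := -(4 * (m : ℤ))) (x := x) (by rw [habs]; exact_mod_cast hx)
      have h2 : (eulerRab (-(4 * (m : ℤ))) x).natAbs = x ^ 2 + m := by
        unfold eulerRab
        rw [if_pos (by omega)]
        have h3 : (x : ℤ) ^ 2 - -(4 * (m : ℤ)) / 4 = ((x ^ 2 + m : ℕ) : ℤ) := by
          push_cast
          omega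
        rw [h3, Int.natAbs_natCast]
      rwa [h2] at h1
    obtain ⟨p, h1, h2, h3, h5, h6, h7, h8⟩ := Ono.main_even hω h4' hsqm hc hval
    rw [hΔ, habs, hnat]
    have hdvd : ∀ P : ℕ, (P : ℤ) ∣ -(4 * (m : ℤ)) → P ∣ 4 * m := by
      intro P hd
      rw [dvd_neg] at hd
      exact_mod_cast hd
    refine ⟨p, h1, h2, fun h => by omega, fun _ => ⟨?_, fun P hP hd => h5 P hP (hdvd P hd), h6⟩,
      fun h P hP hd => h7 (by omega) P hP (hdvd P hd), ?_⟩
    · have : (p : ℤ) ^ 2 < m := by exact_mod_cast h3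
      linarith
    · intro T hT
      have h9 : ((4 * m : ℕ) : ℤ) ≤
          ((4 * (p ^ T.card * ∏ r ∈ (4 * m).primeFactors \ T, r) : ℕ) : ℤ) :=
        Int.ofNat_le.2 (h8 T hT)
      push_cast at h9
      exact h9

end Pool.Agent.Results.MP_ddb6ee_nt.OnoInvariant
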