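import Mathlib
import Pool.Agent.OS.Stmts
import Pool.Agent.OS.Fin3_75

/-!
# MP_ddb6ee_nt: imaginary quadratic discriminants whose Ono invariant is minimal are rare
-/

set_option autoImplicit false

namespace Pool.Agent.Results.MP_ddb6ee_nt.SparseSolutions

open Pool.Agent.OS

/-- There is a constant `C` such that, for all `X ≥ 1`, at most `C * X ^ (5 / 8)` squarefree `D` with
`1 ≤ D ≤ X` are such that the field discriminant `Δ` of `ℚ(√(-D))` has Ono invariant equal to its
number of prime divisors. -/
theorem result : ∃ C : ℝ, ∀ X : ℕ, 1 ≤ X →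
    (((Finset.Icc 1 X).filter (fun D : ℕ => Squarefree D ∧
      onoInvariant (fundDisc (-(D : ℤ))) =
        (fundDisc (-(D : ℤ))).natAbs.primeFactors.card)).card : ℝ) ≤
      C * (X : ℝ) ^ ((5 : ℝ) / 8) :=
  Fin3_75.main3

end Pool.Agent.Results.MP_ddb6ee_nt.SparseSolutions
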